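import Mathlib

set_option autoImplicit false

namespace Pool.Agent.Results.MP_03a7fb_al.ExplicitSeries

open MvPowerSeries

/-- The Laplace operator on formal power series in `N` variables over the complex numbers. -/
noncomputable def lap {N : ℕ} (P : MvPowerSeries (Fin N) ℂ) : MvPowerSeries (Fin N) ℂ :=
  ∑ i, pderiv ℂ i (pderiv ℂ i P)

/-- The Hessian matrix of a formal power series. -/
noncomputable def hes {N : ℕ} (P : MvPowerSeries (Fin N) ℂ) :
    Matrix (Fin N) (Fin N) (MvPowerSeries (Fin N) ℂ) :=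
  Matrix.of fun i j => pderiv ℂ i (pderiv ℂ j P)

section series
variable (n : ℕ)

/-- The indices of the first four of the `n + 4` variables. -/
def i1 : Fin (n + 4) := ⟨0, by omega⟩
@[inherit_doc i1] def i2 : Fin (n + 4) := ⟨1, by omega⟩
@[inherit_doc i1] def i3 : Fin (n + 4) := ⟨2, by omega⟩
@[inherit_doc i1] def i4 : Fin (n + 4) := ⟨3, by omega⟩

/-- `u = z1 + i z2`. -/
noncomputable def u : MvPowerSeries (Fin (n + 4)) ℂ := X (i1 n) + C Complex.I * X (i2 n)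

/-- `v = z1 - i z2`. -/
noncomputable def v : MvPowerSeries (Fin (n + 4)) ℂ := X (i1 n) - C Complex.I * X (i2 n)

/-- `w = z3 + i z4`. -/
noncomputable def w : MvPowerSeries (Fin (n + 4)) ℂ := X (i3 n) + C Complex.I * X (i4 n)

/-- The series `exp (z1 + i z2)`: the coefficient of `z1^a z2^b` is `i^b / (a! b!)`, and every
monomial that involves another variable has coefficient `0`. -/
noncomputable def E : MvPowerSeries (Fin (n + 4)) ℂ := fun d =>
  if ∀ j : Fin (n + 4), 2 ≤ (j : ℕ) → d j = 0 then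
    Complex.I ^ (d (i2 n)) / ((Nat.factorial (d (i1 n)) : ℂ) * (Nat.factorial (d (i2 n)) : ℂ))
  else 0

/-- The series `(z3 + i z4)^k * ((z1 - i z2) + exp (z1 + i z2))`. -/
noncomputable def P (k : ℕ) : MvPowerSeries (Fin (n + 4)) ℂ := w n ^ k * (v n + E n)

end series

/-! ### Coefficients and derivatives -/

lemma pderiv_comm {N : ℕ} (i j : Fin N) (f : MvPowerSeries (Fin N) ℂ) :
    pderiv ℂ i (pderiv ℂ j f) = pderiv ℂ j (pderiv ℂ i f) := by
  ext d
  simp only [coeff_pderiv, Finsupp.add_apply]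
  by_cases h : i = j
  · subst h; rfl
  · rw [Finsupp.single_apply, if_neg h, Finsupp.single_apply, if_neg (Ne.symm h)]
    rw [add_right_comm]
    simp only [add_zero]
    ring

lemma coeff_E {n : ℕ} (d : Fin (n + 4) →₀ ℕ) : coeff d (E n) =
    if ∀ j : Fin (n + 4), 2 ≤ (j : ℕ) → d j = 0 then
      Complex.I ^ (d (i2 n)) / ((Nat.factorial (d (i1 n)) : ℂ) * (Nat.factorial (d (i2 n)) : ℂ))
    else 0 := rfl

lemma E_d1 (n : ℕ) : pderiv ℂ (i1 n) (E n) = E n := by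
  ext d
  rw [coeff_pderiv, coeff_E, coeff_E]
  have h1 : ∀ j : Fin (n + 4), 2 ≤ (j : ℕ) →
      (d + Finsupp.single (i1 n) 1 : Fin (n + 4) →₀ ℕ) j = d j := by
    intro j hj
    rw [Finsupp.add_apply, Finsupp.single_apply, if_neg, add_zero]
    rintro rfl
    simp [i1] at hj
  have h2 : (∀ j : Fin (n + 4), 2 ≤ (j : ℕ) → (d + Finsupp.single (i1 n) 1 : Fin (n + 4) →₀ ℕ) j = 0) ↔
      (∀ j : Fin (n + 4), 2 ≤ (j : ℕ) → d j = 0) := by
    constructor
    · intro h j hj; rw [← h1 j hj]; exact h j hj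
    · intro h j hj; rw [h1 j hj]; exact h j hj
  have h3 : (d + Finsupp.single (i1 n) 1 : Fin (n + 4) →₀ ℕ) (i1 n) = d (i1 n) + 1 := by simp
  have h4 : (d + Finsupp.single (i1 n) 1 : Fin (n + 4) →₀ ℕ) (i2 n) = d (i2 n) := by
    rw [Finsupp.add_apply, Finsupp.single_apply, if_neg, add_zero]
    simp [i1, i2]
  by_cases h : ∀ j : Fin (n + 4), 2 ≤ (j : ℕ) → d j = 0
  · rw [if_pos (h2.mpr h), if_pos h, h3, h4, Nat.factorial_succ]
    have e1 : ((d (i1 n)).factorial : ℂ) ≠ 0 := by exact_mod_cast Nat.factorial_ne_zero _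
    have e2 : ((d (i2 n)).factorial : ℂ) ≠ 0 := by exact_mod_cast Nat.factorial_ne_zero _
    have e3 : ((d (i1 n) : ℂ) + 1) ≠ 0 := Nat.cast_add_one_ne_zero _
    push_cast
    field_simp
  · rw [if_neg (fun h' => h (h2.mp h')), if_neg h, zero_mul]

lemma E_d2 (n : ℕ) : pderiv ℂ (i2 n) (E n) = C Complex.I * E n := by
  ext d
  rw [coeff_pderiv, coeff_C_mul, coeff_E, coeff_E]
  have h1 : ∀ j : Fin (n + 4), 2 ≤ (j : ℕ) →
      (d + Finsupp.single (i2 n) 1 : Fin (n + 4) →₀ ℕ) j = d j := by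
    intro j hj
    rw [Finsupp.add_apply, Finsupp.single_apply, if_neg, add_zero]
    rintro rfl
    simp [i2] at hj
  have h2 : (∀ j : Fin (n + 4), 2 ≤ (j : ℕ) → (d + Finsupp.single (i2 n) 1 : Fin (n + 4) →₀ ℕ) j = 0) ↔
      (∀ j : Fin (n + 4), 2 ≤ (j : ℕ) → d j = 0) := by
    constructor
    · intro h j hj; rw [← h1 j hj]; exact h j hj
    · intro h j hj; rw [h1 j hj]; exact h j hj
  have h3 : (d + Finsupp.single (i2 n) 1 : Fin (n + 4) →₀ ℕ) (i2 n) = d (i2 n) + 1 := by simp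
  have h4 : (d + Finsupp.single (i2 n) 1 : Fin (n + 4) →₀ ℕ) (i1 n) = d (i1 n) := by
    rw [Finsupp.add_apply, Finsupp.single_apply, if_neg, add_zero]
    simp [i1, i2]
  by_cases h : ∀ j : Fin (n + 4), 2 ≤ (j : ℕ) → d j = 0
  · rw [if_pos (h2.mpr h), if_pos h, h3, h4, Nat.factorial_succ, pow_succ]
    have e1 : ((d (i1 n)).factorial : ℂ) ≠ 0 := by exact_mod_cast Nat.factorial_ne_zero _
    have e2 : ((d (i2 n)).factorial : ℂ) ≠ 0 := by exact_mod_cast Nat.factorial_ne_zero _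
    have e3 : ((d (i2 n) : ℂ) + 1) ≠ 0 := Nat.cast_add_one_ne_zero _
    push_cast
    field_simp
  · rw [if_neg (fun h' => h (h2.mp h')), if_neg h, zero_mul, mul_zero]

lemma E_dj (n : ℕ) (j : Fin (n + 4)) (hj : 2 ≤ (j : ℕ)) : pderiv ℂ j (E n) = 0 := by
  ext d
  rw [coeff_pderiv, coeff_E, if_neg, zero_mul, coeff_zero]
  intro h
  have := h j hj
  simp at this

lemma X_d {n : ℕ} (i j : Fin (n + 4)) (h : j ≠ i) :
    pderiv ℂ i (X j : MvPowerSeries (Fin (n + 4)) ℂ) = 0 := pderiv_X_of_ne h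

lemma C_mul_d {n : ℕ} (i : Fin (n + 4)) (c : ℂ) (f : MvPowerSeries (Fin (n + 4)) ℂ) :
    pderiv ℂ i (C c * f) = C c * pderiv ℂ i f := by
  rw [← smul_eq_C_mul, ← smul_eq_C_mul, Derivation.map_smul]

lemma v_d1 (n : ℕ) : pderiv ℂ (i1 n) (v n) = 1 := by
  rw [v, map_sub, C_mul_d, pderiv_X_self, X_d _ _ (by simp [i1, i2])]; simp
lemma v_d2 (n : ℕ) : pderiv ℂ (i2 n) (v n) = - C Complex.I := by
  rw [v, map_sub, C_mul_d, pderiv_X_self, X_d _ _ (by simp [i1, i2])]; simp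
lemma v_dj (n : ℕ) (j : Fin (n + 4)) (hj : 2 ≤ (j : ℕ)) : pderiv ℂ j (v n) = 0 := by
  rw [v, map_sub, C_mul_d, X_d _ _ (by rintro rfl; simp [i1] at hj),
    X_d _ _ (by rintro rfl; simp [i2] at hj)]; simp
lemma w_d3 (n : ℕ) : pderiv ℂ (i3 n) (w n) = 1 := by
  rw [w, map_add, C_mul_d, pderiv_X_self, X_d _ _ (by simp [i3, i4])]; simp
lemma w_d4 (n : ℕ) : pderiv ℂ (i4 n) (w n) = C Complex.I := by
  rw [w, map_add, C_mul_d, pderiv_X_self, X_d _ _ (by simp [i3, i4])]; simp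
lemma w_dj (n : ℕ) (j : Fin (n + 4)) (hj : j ≠ i3 n) (hj' : j ≠ i4 n) :
    pderiv ℂ j (w n) = 0 := by
  rw [w, map_add, C_mul_d, X_d _ _ (Ne.symm hj), X_d _ _ (Ne.symm hj')]; simp


/-! ### The two null directions -/

/-- `2 d/dv` -/
noncomputable def Dm (n : ℕ) : Derivation ℂ (MvPowerSeries (Fin (n + 4)) ℂ)
    (MvPowerSeries (Fin (n + 4)) ℂ) := pderiv ℂ (i1 n) + Complex.I • pderiv ℂ (i2 n)

/-- `2 d/du` -/
noncomputable def Dp (n : ℕ) : Derivation ℂ (MvPowerSeries (Fin (n + 4)) ℂ)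
    (MvPowerSeries (Fin (n + 4)) ℂ) := pderiv ℂ (i1 n) - Complex.I • pderiv ℂ (i2 n)

lemma Dm_apply {n : ℕ} (f : MvPowerSeries (Fin (n + 4)) ℂ) :
    Dm n f = pderiv ℂ (i1 n) f + C Complex.I * pderiv ℂ (i2 n) f := by
  rw [Dm, Derivation.add_apply, Derivation.smul_apply, smul_eq_C_mul]

lemma Dp_apply {n : ℕ} (f : MvPowerSeries (Fin (n + 4)) ℂ) :
    Dp n f = pderiv ℂ (i1 n) f - C Complex.I * pderiv ℂ (i2 n) f := by
  rw [Dp, Derivation.sub_apply, Derivation.smul_apply, smul_eq_C_mul]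

lemma CI_mul (n : ℕ) :
    (C Complex.I : MvPowerSeries (Fin (n + 4)) ℂ) * C Complex.I = -1 := by
  rw [← map_mul, Complex.I_mul_I, map_neg, map_one]

lemma Dm_E (n : ℕ) : Dm n (E n) = 0 := by
  rw [Dm_apply, E_d1, E_d2, ← mul_assoc, CI_mul]; ring
lemma Dp_E (n : ℕ) : Dp n (E n) = 2 * E n := by
  rw [Dp_apply, E_d1, E_d2, ← mul_assoc, CI_mul]; ring
lemma Dm_v (n : ℕ) : Dm n (v n) = 2 := by
  rw [Dm_apply, v_d1, v_d2, mul_neg, CI_mul]; ring
lemma Dp_v (n : ℕ) : Dp n (v n) = 0 := by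
  rw [Dp_apply, v_d1, v_d2, mul_neg, CI_mul]; ring
lemma w_d1 (n : ℕ) : pderiv ℂ (i1 n) (w n) = 0 :=
  w_dj n _ (by simp [i1, i3]) (by simp [i1, i4])
lemma w_d2 (n : ℕ) : pderiv ℂ (i2 n) (w n) = 0 :=
  w_dj n _ (by simp [i2, i3]) (by simp [i2, i4])
lemma Dm_w (n : ℕ) : Dm n (w n) = 0 := by
  rw [Dm_apply, w_d1, w_d2]; simp
lemma Dp_w (n : ℕ) : Dp n (w n) = 0 := by
  rw [Dp_apply, w_d1, w_d2]; simp

lemma D_pow_zero {n : ℕ} (D : Derivation ℂ (MvPowerSeries (Fin (n + 4)) ℂ)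
    (MvPowerSeries (Fin (n + 4)) ℂ)) {c : MvPowerSeries (Fin (n + 4)) ℂ} (hc : D c = 0) (j : ℕ) :
    D (c ^ j) = 0 := by
  rw [Derivation.leibniz_pow, hc, smul_zero, smul_zero]

lemma D_mul_const {n : ℕ} (D : Derivation ℂ (MvPowerSeries (Fin (n + 4)) ℂ)
    (MvPowerSeries (Fin (n + 4)) ℂ)) {c : MvPowerSeries (Fin (n + 4)) ℂ} (hc : D c = 0)
    (f : MvPowerSeries (Fin (n + 4)) ℂ) : D (c * f) = c * D f := by
  rw [Derivation.leibniz, hc, smul_zero, add_zero, smul_eq_mul]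

lemma D_iter_const {n : ℕ} (D : Derivation ℂ (MvPowerSeries (Fin (n + 4)) ℂ)
    (MvPowerSeries (Fin (n + 4)) ℂ)) {c : MvPowerSeries (Fin (n + 4)) ℂ} (hc : D c = 0)
    (f : MvPowerSeries (Fin (n + 4)) ℂ) (m : ℕ) : D^[m] (c * f) = c * D^[m] f := by
  induction m with
  | zero => rfl
  | succ m ih => rw [Function.iterate_succ_apply', ih, D_mul_const D hc,
      Function.iterate_succ_apply']

lemma D_iter_pow {n : ℕ} (D : Derivation ℂ (MvPowerSeries (Fin (n + 4)) ℂ)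
    (MvPowerSeries (Fin (n + 4)) ℂ)) {f c : MvPowerSeries (Fin (n + 4)) ℂ} (hf : D f = c)
    (hc : D c = 0) (m j : ℕ) :
    D^[j] (f ^ m) = ((m.descFactorial j : ℕ) : MvPowerSeries (Fin (n + 4)) ℂ) *
      (c ^ j * f ^ (m - j)) := by
  induction j with
  | zero => simp
  | succ j ih =>
    rw [Function.iterate_succ_apply', ih]
    have h0 : D ((m.descFactorial j : ℕ) : MvPowerSeries (Fin (n + 4)) ℂ) = 0 :=
      Derivation.map_natCast D _
    rw [D_mul_const D h0, D_mul_const D (D_pow_zero D hc j), Derivation.leibniz_pow, hf]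
    rw [Nat.descFactorial_succ, Nat.sub_sub]
    simp only [nsmul_eq_mul, smul_eq_mul]
    push_cast
    ring

lemma Dm_P (n k : ℕ) : Dm n (P n k) = 2 * w n ^ k := by
  rw [P, D_mul_const _ (D_pow_zero _ (Dm_w n) k), map_add, Dm_v, Dm_E]; ring

lemma Dp_P (n k : ℕ) : Dp n (P n k) = 2 * (w n ^ k * E n) := by
  rw [P, D_mul_const _ (D_pow_zero _ (Dp_w n) k), map_add, Dp_v, Dp_E]; ring

lemma D_two {n : ℕ} (D : Derivation ℂ (MvPowerSeries (Fin (n + 4)) ℂ)
    (MvPowerSeries (Fin (n + 4)) ℂ)) : D 2 = 0 := by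
  have := Derivation.map_natCast D 2
  exact_mod_cast this

lemma Dp_iter_P (n k m : ℕ) (hm : 1 ≤ m) :
    (Dp n)^[m] (P n k) = 2 ^ m * (w n ^ k * E n) := by
  induction m, hm using Nat.le_induction with
  | base => simp [Dp_P]
  | succ m hm ih =>
    rw [Function.iterate_succ_apply', ih, D_mul_const _ (D_pow_zero _ (D_two _) m),
      D_mul_const _ (D_pow_zero _ (Dp_w n) k), Dp_E]
    ring

/-- Series on which the Laplace operator is `Dp Dm`. -/
def Good {n : ℕ} (f : MvPowerSeries (Fin (n + 4)) ℂ) : Prop :=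
  (pderiv ℂ (i3 n) f + C Complex.I * pderiv ℂ (i4 n) f = 0) ∧
    ∀ j : Fin (n + 4), 4 ≤ (j : ℕ) → pderiv ℂ j f = 0

lemma pderiv_add_CI_mul {n : ℕ} (i j l : Fin (n + 4)) (f : MvPowerSeries (Fin (n + 4)) ℂ) :
    pderiv ℂ l (pderiv ℂ i f + C Complex.I * pderiv ℂ j f) =
    pderiv ℂ i (pderiv ℂ l f) + C Complex.I * pderiv ℂ j (pderiv ℂ l f) := by
  rw [map_add, C_mul_d, pderiv_comm l i, pderiv_comm l j]

lemma Good.pd {n : ℕ} {f : MvPowerSeries (Fin (n + 4)) ℂ} (hf : Good f) (l : Fin (n + 4)) :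
    Good (pderiv ℂ l f) := by
  refine ⟨?_, fun j hj => ?_⟩
  · rw [← pderiv_add_CI_mul, hf.1, map_zero]
  · rw [pderiv_comm, hf.2 j hj, map_zero]

lemma Good.add {n : ℕ} {f g : MvPowerSeries (Fin (n + 4)) ℂ} (hf : Good f) (hg : Good g) :
    Good (f + g) := by
  refine ⟨?_, fun j hj => ?_⟩
  · have h1 := hf.1
    have h2 := hg.1
    rw [map_add, map_add]
    linear_combination h1 + h2
  · rw [map_add, hf.2 j hj, hg.2 j hj, add_zero]

lemma Good.Cmul {n : ℕ} {f : MvPowerSeries (Fin (n + 4)) ℂ} (hf : Good f) (c : ℂ) :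
    Good (C c * f) := by
  refine ⟨?_, fun j hj => ?_⟩
  · have h1 := hf.1
    rw [C_mul_d, C_mul_d]
    linear_combination C c * h1
  · rw [C_mul_d, hf.2 j hj, mul_zero]

lemma Good.mul {n : ℕ} {f g : MvPowerSeries (Fin (n + 4)) ℂ} (hf : Good f) (hg : Good g) :
    Good (f * g) := by
  refine ⟨?_, fun j hj => ?_⟩
  · have h1 := hf.1
    have h2 := hg.1
    rw [Derivation.leibniz, Derivation.leibniz]
    simp only [smul_eq_mul]
    linear_combination g * h1 + f * h2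
  · rw [Derivation.leibniz, hf.2 j hj, hg.2 j hj]; simp

lemma Good.one {n : ℕ} : Good (1 : MvPowerSeries (Fin (n + 4)) ℂ) := by
  refine ⟨?_, fun j hj => ?_⟩ <;> simp

lemma Good.pow {n : ℕ} {f : MvPowerSeries (Fin (n + 4)) ℂ} (hf : Good f) (m : ℕ) :
    Good (f ^ m) := by
  induction m with
  | zero => simpa using Good.one
  | succ m ih => rw [pow_succ]; exact ih.mul hf

lemma Good.dm {n : ℕ} {f : MvPowerSeries (Fin (n + 4)) ℂ} (hf : Good f) : Good (Dm n f) := by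
  rw [Dm_apply]; exact (hf.pd _).add ((hf.pd _).Cmul _)

lemma Good.dp {n : ℕ} {f : MvPowerSeries (Fin (n + 4)) ℂ} (hf : Good f) : Good (Dp n f) := by
  rw [Dp_apply, sub_eq_add_neg, ← neg_mul, ← map_neg]
  exact (hf.pd _).add ((hf.pd _).Cmul _)

lemma good_w (n : ℕ) : Good (w n) := by
  refine ⟨?_, fun j hj => ?_⟩
  · rw [w_d3, w_d4, CI_mul]; ring
  · apply w_dj
    · rintro rfl; simp [i3] at hj
    · rintro rfl; simp [i4] at hj

lemma good_v (n : ℕ) : Good (v n) := by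
  refine ⟨?_, fun j hj => v_dj n j (by omega)⟩
  rw [v_dj n _ (by simp [i3]), v_dj n _ (by simp [i4])]; simp

lemma good_E (n : ℕ) : Good (E n) := by
  refine ⟨?_, fun j hj => E_dj n j (by omega)⟩
  rw [E_dj n _ (by simp [i3]), E_dj n _ (by simp [i4])]; simp

lemma good_P (n k : ℕ) : Good (P n k) :=
  ((good_w n).pow k).mul ((good_v n).add (good_E n))

lemma lap_good {n : ℕ} {f : MvPowerSeries (Fin (n + 4)) ℂ} (hf : Good f) :
    lap f = Dp n (Dm n f) := by
  have h1 : lap f = ∑ i ∈ ({i1 n, i2 n, i3 n, i4 n} : Finset (Fin (n + 4))),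
      pderiv ℂ i (pderiv ℂ i f) := by
    rw [lap]
    symm
    apply Finset.sum_subset (Finset.subset_univ _)
    intro j _ hj
    have : 4 ≤ (j : ℕ) := by
      by_contra hlt
      apply hj
      simp only [Finset.mem_insert, Finset.mem_singleton, i1, i2, i3, i4, Fin.ext_iff]
      omega
    rw [hf.2 j this, map_zero]
  have h2 : pderiv ℂ (i3 n) (pderiv ℂ (i3 n) f) + pderiv ℂ (i4 n) (pderiv ℂ (i4 n) f) = 0 := by
    have a1 := congrArg (pderiv ℂ (i3 n)) hf.1
    have a2 := congrArg (pderiv ℂ (i4 n)) hf.1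
    rw [map_zero, map_add, C_mul_d] at a1 a2
    rw [pderiv_comm (i4 n) (i3 n)] at a2
    linear_combination a1 - C Complex.I * a2 +
      pderiv ℂ (i4 n) (pderiv ℂ (i4 n) f) * CI_mul n
  rw [h1, Finset.sum_insert (by simp [i1, i2, i3, i4]),
    Finset.sum_insert (by simp [i2, i3, i4]), Finset.sum_insert (by simp [i3, i4]),
    Finset.sum_singleton, h2, Dm_apply, Dp_apply, map_add, map_add, C_mul_d, C_mul_d,
    pderiv_comm (i2 n) (i1 n)]
  linear_combination (pderiv ℂ (i2 n) (pderiv ℂ (i2 n) f)) * CI_mul n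

lemma Dp_Dm_comm {n : ℕ} (f : MvPowerSeries (Fin (n + 4)) ℂ) :
    Dp n (Dm n f) = Dm n (Dp n f) := by
  rw [Dm_apply, Dp_apply, Dm_apply, Dp_apply]
  simp only [map_add, map_sub, C_mul_d]
  rw [pderiv_comm (i2 n) (i1 n)]
  ring

lemma lap_iter_good {n : ℕ} {f : MvPowerSeries (Fin (n + 4)) ℂ} (hf : Good f) (m : ℕ) :
    lap^[m] f = (Dp n)^[m] ((Dm n)^[m] f) := by
  have hcomm : Function.Commute (Dp n) (Dm n) := fun f => Dp_Dm_comm f
  have hgood : ∀ m, Good (((fun g => Dp n (Dm n g)))^[m] f) ∧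
      lap^[m] f = ((fun g => Dp n (Dm n g)))^[m] f := by
    intro m
    induction m with
    | zero => exact ⟨hf, rfl⟩
    | succ m ih =>
      rw [Function.iterate_succ_apply', Function.iterate_succ_apply', ih.2]
      exact ⟨ih.1.dm.dp, lap_good ih.1⟩
  rw [(hgood m).2]
  have := hcomm.comp_iterate m
  exact congrFun this f

/-! ### The Laplacian powers -/

theorem lap_iter_P_succ (n k m : ℕ) (hm : 1 ≤ m) :
    lap^[m] (P n k ^ (m + 1)) =
      C (4 ^ m * (Nat.factorial (m + 1) : ℂ)) * (w n ^ (k * (m + 1)) * E n) := by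
  rw [lap_iter_good ((good_P n k).pow _), D_iter_pow (Dm n) (Dm_P n k)
    (by rw [D_mul_const _ (D_two _), D_pow_zero _ (Dm_w n), mul_zero])]
  have h1 : m + 1 - m = 1 := by omega
  have hc : Dp n (2 * w n ^ k) = 0 := by
    rw [D_mul_const _ (D_two _), D_pow_zero _ (Dp_w n), mul_zero]
  rw [h1, pow_one, D_iter_const _ (Derivation.map_natCast _ _),
    D_iter_const _ (D_pow_zero _ hc m), Dp_iter_P n k m hm]
  have h2 : (m + 1).descFactorial m = (m + 1).factorial := by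
    rw [← Nat.descFactorial_self (m + 1), Nat.descFactorial_succ]
    simp
  rw [h2, map_mul, map_pow]
  have h4 : (C (4 : ℂ) : MvPowerSeries (Fin (n + 4)) ℂ) = 4 := by
    exact_mod_cast map_natCast (C (σ := Fin (n + 4)) (R := ℂ)) 4
  have h5 : (C ((Nat.factorial (m + 1) : ℕ) : ℂ) : MvPowerSeries (Fin (n + 4)) ℂ) =
      (((Nat.factorial (m + 1) : ℕ)) : MvPowerSeries (Fin (n + 4)) ℂ) :=
    map_natCast (C (σ := Fin (n + 4)) (R := ℂ)) _
  rw [h4, h5, mul_pow]
  have h6 : (4 : MvPowerSeries (Fin (n + 4)) ℂ) ^ m = 2 ^ m * 2 ^ m := by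
    rw [← mul_pow]; norm_num
  rw [h6]
  have h7 : w n ^ (k * (m + 1)) = (w n ^ k) ^ m * w n ^ k := by
    rw [← pow_mul, ← pow_add]; ring_nf
  rw [h7]
  ring

theorem lap_iter_P_self (n k m : ℕ) (hm : 1 ≤ m) : lap^[m] (P n k ^ m) = 0 := by
  rw [lap_iter_good ((good_P n k).pow _), D_iter_pow (Dm n) (Dm_P n k)
    (by rw [D_mul_const _ (D_two _), D_pow_zero _ (Dm_w n), mul_zero])]
  have hc : Dp n (2 * w n ^ k) = 0 := by
    rw [D_mul_const _ (D_two _), D_pow_zero _ (Dp_w n), mul_zero]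
  rw [Nat.sub_self, pow_zero, D_iter_const _ (Derivation.map_natCast _ _),
    D_iter_const _ (D_pow_zero _ hc m)]
  obtain ⟨m, rfl⟩ := Nat.exists_eq_add_of_le' hm
  rw [Function.iterate_succ_apply, Derivation.map_one_eq_zero]
  have : ∀ j, (Dp n)^[j] 0 = 0 := by
    intro j
    induction j with
    | zero => rfl
    | succ j ih => rw [Function.iterate_succ_apply', ih, map_zero]
  rw [this]; simp

/-! ### Nonvanishing, order and nonpolynomiality -/

lemma constantCoeff_E (n : ℕ) : constantCoeff (E n) = 1 := by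
  rw [← coeff_zero_eq_constantCoeff_apply, coeff_E]
  simp

lemma E_ne_zero (n : ℕ) : E n ≠ 0 := by
  intro h
  have := constantCoeff_E n
  rw [h] at this
  simp at this

lemma w_ne_zero (n : ℕ) : w n ≠ 0 := by
  intro h
  have := w_d3 n
  rw [h] at this
  simp at this

lemma order_eq_zero_of_constantCoeff {n : ℕ} {f : MvPowerSeries (Fin (n + 4)) ℂ}
    (h : constantCoeff f ≠ 0) : f.order = 0 := by
  by_contra h0
  exact h (order_ne_zero_iff_constCoeff_eq_zero.mp h0)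

lemma order_w (n : ℕ) : (w n).order = 1 := by
  apply le_antisymm
  · have h : coeff (Finsupp.single (i3 n) 1) (w n) ≠ 0 := by
      have h1 : coeff 0 (pderiv ℂ (i3 n) (w n)) = 1 := by
        rw [w_d3]; simp
      rw [coeff_pderiv] at h1
      intro h2
      rw [zero_add, h2, zero_mul] at h1
      exact zero_ne_one h1
    have := order_le h
    simpa using this
  · rw [one_le_order_iff_constCoeff_eq_zero]
    simp [w]

lemma order_P (n k : ℕ) : (P n k).order = k := by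
  have h1 : (w n ^ k).order = k := by
    induction k with
    | zero =>
      rw [pow_zero, order_eq_zero_of_constantCoeff (by simp)]; rfl
    | succ k ih => rw [pow_succ, order_mul, ih, order_w]; push_cast; rfl
  have h2 : (v n + E n).order = 0 := by
    apply order_eq_zero_of_constantCoeff
    rw [map_add, constantCoeff_E]
    simp [v]
  rw [P, order_mul, h1, h2, add_zero]

lemma poly_eq_zero_of_pderiv_eq {N : ℕ} (i : Fin N) (Q : MvPolynomial (Fin N) ℂ)
    (h : MvPolynomial.pderiv i Q = Q) : Q = 0 := by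
  by_contra hQ
  obtain ⟨d, hd, hmax⟩ := Finset.exists_max_image Q.support (fun d => d i)
    (MvPolynomial.support_nonempty.mpr hQ)
  have h1 : MvPolynomial.coeff d (MvPolynomial.pderiv i Q) = MvPolynomial.coeff d Q := by rw [h]
  rw [MvPolynomial.coeff_pderiv] at h1
  have h2 : d + Finsupp.single i 1 ∈ Q.support := by
    rw [MvPolynomial.mem_support_iff]
    intro h3
    rw [h3, zero_mul] at h1
    exact (MvPolynomial.mem_support_iff.mp hd) h1.symm
  have h3 := hmax _ h2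
  simp at h3

theorem P_not_polynomial (n k : ℕ) (Q : MvPolynomial (Fin (n + 4)) ℂ) :
    (Q : MvPowerSeries (Fin (n + 4)) ℂ) ≠ P n k := by
  intro hQ
  set R : MvPolynomial (Fin (n + 4)) ℂ :=
    MvPolynomial.pderiv (i1 n) Q - MvPolynomial.C Complex.I * MvPolynomial.pderiv (i2 n) Q with hR
  have h1 : (R : MvPowerSeries (Fin (n + 4)) ℂ) = 2 * (w n ^ k * E n) := by
    rw [← Dp_P, Dp_apply, ← hQ, pderiv_coe, pderiv_coe, hR]
    rw [sub_eq_add_neg, MvPolynomial.coe_add, ← neg_mul, ← map_neg, MvPolynomial.coe_mul,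
      MvPolynomial.coe_C, sub_eq_add_neg, ← neg_mul, ← map_neg]
  have h2 : MvPolynomial.pderiv (i1 n) R = R := by
    apply MvPolynomial.coe_injective
    rw [← pderiv_coe, h1, D_mul_const _ (D_two _), D_mul_const _ (D_pow_zero _ (w_d1 n) k), E_d1]
  have h3 : R = 0 := poly_eq_zero_of_pderiv_eq (i1 n) R h2
  rw [h3, MvPolynomial.coe_zero] at h1
  have h4 : (2 : MvPowerSeries (Fin (n + 4)) ℂ) ≠ 0 := by
    intro h
    have := congrArg constantCoeff h
    rw [map_zero] at this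
    have h5 : constantCoeff (2 : MvPowerSeries (Fin (n + 4)) ℂ) = (2 : ℂ) := by
      exact_mod_cast map_natCast (constantCoeff (σ := Fin (n + 4)) (R := ℂ)) 2
    rw [h5] at this
    exact two_ne_zero this
  exact (mul_ne_zero h4 (mul_ne_zero (pow_ne_zero _ (w_ne_zero n)) (E_ne_zero n))) h1.symm

/-! ### The Hessian matrix -/

open Matrix in
lemma nilp_aux {A ι : Type} [CommRing A] [Fintype ι] [DecidableEq ι] (a c q : ι → A)
    (s t r : A) (hcc : c ⬝ᵥ c = 0) (hcq : c ⬝ᵥ q = 0) (hca : c ⬝ᵥ a = 0) (haa : a ⬝ᵥ a = 0)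
    (H : Matrix ι ι A) (hH : H = s • vecMulVec c c + t • (vecMulVec c q + vecMulVec q c) +
      r • vecMulVec a a) : H ^ 4 = 0 := by
  have hqc : q ⬝ᵥ c = 0 := by rw [dotProduct_comm]; exact hcq
  have hac : a ⬝ᵥ c = 0 := by rw [dotProduct_comm]; exact hca
  have key : ∀ y : ι → A, y ᵥ* H = (s * (y ⬝ᵥ c) + t * (y ⬝ᵥ q)) • c + (t * (y ⬝ᵥ c)) • q +
      (r * (y ⬝ᵥ a)) • a := by
    intro y
    rw [hH]
    simp only [vecMul_add, vecMul_smul, vecMul_vecMulVec]
    module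
  have kc : c ᵥ* H = 0 := by rw [key, hcc, hcq, hca]; simp
  have ka : a ᵥ* H = (t * (a ⬝ᵥ q)) • c := by rw [key, hac, haa]; simp
  have kq : q ᵥ* H = (t * (q ⬝ᵥ q)) • c + (r * (q ⬝ᵥ a)) • a := by rw [key, hqc]; simp
  have h4 : ∀ y : ι → A, y ᵥ* (H ^ 4) = 0 := by
    intro y
    have : H ^ 4 = H * H * H * H := by noncomm_ring
    rw [this]
    simp only [← vecMul_vecMul]
    rw [key y]
    simp only [add_vecMul, smul_vecMul, kc, ka, kq, smul_zero, zero_add, add_zero]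
  ext i j
  have := congrFun (h4 (Pi.single i 1)) j
  simpa using this

/-- Coordinates of the gradients of `u`, `v`, `w`. -/
noncomputable def ga (n : ℕ) (j : Fin (n + 4)) : ℂ :=
  if j = i1 n then 1 else if j = i2 n then Complex.I else 0
noncomputable def gb (n : ℕ) (j : Fin (n + 4)) : ℂ :=
  if j = i1 n then 1 else if j = i2 n then -Complex.I else 0
noncomputable def gc (n : ℕ) (j : Fin (n + 4)) : ℂ :=
  if j = i3 n then 1 else if j = i4 n then Complex.I else 0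

lemma two_le_of {n : ℕ} {j : Fin (n + 4)} (h1 : j ≠ i1 n) (h2 : j ≠ i2 n) : 2 ≤ (j : ℕ) := by
  by_contra h
  have h0 : (j : ℕ) ≠ 0 := fun h0 => h1 (Fin.ext h0)
  have h0' : (j : ℕ) ≠ 1 := fun h0 => h2 (Fin.ext h0)
  omega

lemma E_grad (n : ℕ) (j : Fin (n + 4)) : pderiv ℂ j (E n) = C (ga n j) * E n := by
  by_cases h1 : j = i1 n
  · subst h1; rw [E_d1, ga, if_pos rfl, map_one, one_mul]
  by_cases h2 : j = i2 n
  · subst h2; rw [E_d2, ga, if_neg h1, if_pos rfl]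
  rw [E_dj n j (two_le_of h1 h2), ga, if_neg h1, if_neg h2, map_zero, zero_mul]

lemma v_grad (n : ℕ) (j : Fin (n + 4)) : pderiv ℂ j (v n) = C (gb n j) := by
  by_cases h1 : j = i1 n
  · subst h1; rw [v_d1, gb, if_pos rfl, map_one]
  by_cases h2 : j = i2 n
  · subst h2; rw [v_d2, gb, if_neg h1, if_pos rfl, map_neg]
  rw [v_dj n j (two_le_of h1 h2), gb, if_neg h1, if_neg h2, map_zero]

lemma w_grad (n : ℕ) (j : Fin (n + 4)) : pderiv ℂ j (w n) = C (gc n j) := by
  by_cases h1 : j = i3 n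
  · subst h1; rw [w_d3, gc, if_pos rfl, map_one]
  by_cases h2 : j = i4 n
  · subst h2; rw [w_d4, gc, if_neg h1, if_pos rfl]
  rw [w_dj n j h1 h2, gc, if_neg h1, if_neg h2, map_zero]

open Matrix in
lemma hes_P (n k : ℕ) : hes (P n k) =
    ((k : MvPowerSeries (Fin (n + 4)) ℂ) * ((k - 1 : ℕ) : MvPowerSeries (Fin (n + 4)) ℂ) *
        w n ^ (k - 2) * (v n + E n)) •
      vecMulVec (fun j => C (gc n j)) (fun j => C (gc n j)) +
    ((k : MvPowerSeries (Fin (n + 4)) ℂ) * w n ^ (k - 1)) •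
      (vecMulVec (fun j => C (gc n j)) (fun j => C (gb n j) + E n * C (ga n j)) +
        vecMulVec (fun j => C (gb n j) + E n * C (ga n j)) (fun j => C (gc n j))) +
    (w n ^ k * E n) • vecMulVec (fun j => C (ga n j)) (fun j => C (ga n j)) := by
  ext1 i j
  simp only [hes, P, Matrix.of_apply, Matrix.add_apply, Matrix.smul_apply, vecMulVec_apply,
    smul_eq_mul]
  have hG : ∀ i, pderiv ℂ i (v n + E n) = C (gb n i) + E n * C (ga n i) := by
    intro i; rw [map_add, v_grad, E_grad]; ring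
  have hw : ∀ (i : Fin (n + 4)) (l : ℕ), pderiv ℂ i (w n ^ l) =
      (l : MvPowerSeries (Fin (n + 4)) ℂ) * w n ^ (l - 1) * C (gc n i) := by
    intro i l; rw [pderiv_pow, w_grad]
  have hd : ∀ (i : Fin (n + 4)) (f g : MvPowerSeries (Fin (n + 4)) ℂ), pderiv ℂ i (f * g) =
      f * pderiv ℂ i g + g * pderiv ℂ i f := by
    intro i f g; rw [Derivation.leibniz, smul_eq_mul, smul_eq_mul]
  have hn : ∀ (i : Fin (n + 4)) (l : ℕ),
      pderiv ℂ i (l : MvPowerSeries (Fin (n + 4)) ℂ) = 0 := fun i l => Derivation.map_natCast _ _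
  have h2 : k - 1 - 1 = k - 2 := by omega
  simp only [hd, hG, hw, map_add, pderiv_C, E_grad, hn, h2]
  ring

lemma sum_C {n : ℕ} (f : Fin (n + 4) → ℂ) (g : Fin (n + 4) → ℂ) :
    ∑ j, (C (f j) * C (g j) : MvPowerSeries (Fin (n + 4)) ℂ) = C (∑ j, f j * g j) := by
  rw [map_sum]
  simp only [map_mul]

lemma sum12 {n : ℕ} (f : Fin (n + 4) → ℂ) (h : ∀ j : Fin (n + 4), 2 ≤ (j : ℕ) → f j = 0) :
    ∑ j, f j = f (i1 n) + f (i2 n) := by
  have : ∑ j, f j = ∑ j ∈ ({i1 n, i2 n} : Finset (Fin (n + 4))), f j := by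
    symm
    apply Finset.sum_subset (Finset.subset_univ _)
    intro j _ hj
    apply h
    by_contra hlt
    apply hj
    simp only [Finset.mem_insert, Finset.mem_singleton, i1, i2, Fin.ext_iff]
    omega
  rw [this, Finset.sum_pair (by simp [i1, i2])]

lemma sum34 {n : ℕ} (f : Fin (n + 4) → ℂ) (h : ∀ j, j ≠ i3 n → j ≠ i4 n → f j = 0) :
    ∑ j, f j = f (i3 n) + f (i4 n) := by
  have : ∑ j, f j = ∑ j ∈ ({i3 n, i4 n} : Finset (Fin (n + 4))), f j := by
    symm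
    apply Finset.sum_subset (Finset.subset_univ _)
    intro j _ hj
    simp only [Finset.mem_insert, Finset.mem_singleton, not_or] at hj
    exact h j hj.1 hj.2
  rw [this, Finset.sum_pair (by simp [i3, i4])]

lemma ga_zero {n : ℕ} {j : Fin (n + 4)} (h : 2 ≤ (j : ℕ)) : ga n j = 0 := by
  rw [ga, if_neg, if_neg]
  · rintro rfl; simp [i2] at h
  · rintro rfl; simp [i1] at h
lemma gb_zero {n : ℕ} {j : Fin (n + 4)} (h : 2 ≤ (j : ℕ)) : gb n j = 0 := by
  rw [gb, if_neg, if_neg]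
  · rintro rfl; simp [i2] at h
  · rintro rfl; simp [i1] at h
lemma gc_zero {n : ℕ} {j : Fin (n + 4)} (h : j ≠ i3 n) (h' : j ≠ i4 n) : gc n j = 0 := by
  rw [gc, if_neg h, if_neg h']

theorem hes_P_pow_four (n k : ℕ) : hes (P n k) ^ 4 = 0 := by
  refine nilp_aux (fun j => C (ga n j)) (fun j => C (gc n j))
    (fun j => C (gb n j) + E n * C (ga n j)) _ _ _ ?_ ?_ ?_ ?_ _ (hes_P n k)
  · simp only [dotProduct]
    rw [sum_C, sum34 _ (fun j h h' => by rw [gc_zero h h', zero_mul])]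
    simp [gc, i3, i4]
  · simp only [dotProduct, mul_add, Finset.sum_add_distrib]
    have h1 : ∀ j, (C (gc n j) * (E n * C (ga n j)) : MvPowerSeries (Fin (n + 4)) ℂ) =
      E n * (C (gc n j) * C (ga n j)) := fun j => by ring
    simp only [h1]
    rw [← Finset.mul_sum, sum_C, sum_C, sum12 _ (fun j h => by rw [gb_zero h, mul_zero]),
      sum12 _ (fun j h => by rw [ga_zero h, mul_zero])]
    simp [gc, i1, i2, i3, i4]
  · simp only [dotProduct]
    rw [sum_C, sum12 _ (fun j h => by rw [ga_zero h, mul_zero])]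
    simp [gc, i1, i2, i3, i4]
  · simp only [dotProduct]
    rw [sum_C, sum12 _ (fun j h => by rw [ga_zero h, mul_zero])]
    simp [ga, i1, i2]

/-- **Main result.** For all `n` and `k`, the series
`P = (z3 + i z4)^k ((z1 - i z2) + exp (z1 + i z2))` in `n + 4` variables has order exactly `k`, is
not a polynomial, has a nilpotent Hessian matrix, satisfies `Δ^m P^m = 0` for all `m ≥ 1`, and
nevertheless `Δ^m P^(m+1) ≠ 0` for every `m ≥ 1`. -/
theorem result (n k : ℕ) :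
    (P n k).order = k ∧
    (∀ Q : MvPolynomial (Fin (n + 4)) ℂ, (Q : MvPowerSeries (Fin (n + 4)) ℂ) ≠ P n k) ∧
    IsNilpotent (hes (P n k)) ∧
    (∀ m : ℕ, 1 ≤ m → lap^[m] (P n k ^ m) = 0) ∧
    (∀ m : ℕ, 1 ≤ m → lap^[m] (P n k ^ (m + 1)) =
      C (4 ^ m * (Nat.factorial (m + 1) : ℂ)) * (w n ^ (k * (m + 1)) * E n)) ∧
    (∀ m : ℕ, 1 ≤ m → lap^[m] (P n k ^ (m + 1)) ≠ 0) := by
  refine ⟨order_P n k, P_not_polynomial n k, ⟨4, hes_P_pow_four n k⟩, lap_iter_P_self n k,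
    lap_iter_P_succ n k, fun m hm => ?_⟩
  rw [lap_iter_P_succ n k m hm]
  refine mul_ne_zero ?_ (mul_ne_zero (pow_ne_zero _ (w_ne_zero n)) (E_ne_zero n))
  rw [Ne, map_eq_zero_iff _ MvPowerSeries.C_injective]
  exact mul_ne_zero (pow_ne_zero _ (by norm_num)) (by exact_mod_cast Nat.factorial_ne_zero _)

end Pool.Agent.Results.MP_03a7fb_al.ExplicitSeries
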